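import Pool.Agent.R545.Tg.Proper

/-!
# An undirected temporal graph without a directed proper simple realisation

The temporal graph is the cycle with nine vertices whose edges carry, in this order, the label
sets `{2}, {1, 4}, {3}, {2}, {1, 4}, {3}, {2}, {1, 4}, {3}`, with non-strict temporal paths.

The definitions (in `Pool.Agent.R545.Tg.Proper`):
* `UTempGraph V`, `DTempGraph W`: undirected / directed temporal graphs on a finite vertex set
  (edges with finite non-empty sets of labels); `DTempGraph.Simple`: every edge carries exactly one
  label; `DTempGraph.Proper`: for every temporal edge `(u, v, t)` and every temporal edge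
  `(v, x, t')` with `x ≠ v`, one has `t ≠ t'`;
* `PathFromTo R A u v`: there is a temporal path from `u` to `v` on distinct vertices, consecutive
  times being in the relation `R` (`≤` for non-strict and `<` for strict paths);
* `RGraph R A u v`: `u ≠ v` and there is such a path (the reachability graph).
-/

namespace Pool.Agent.Results.MP_352b69_co.NineCycleProper

open Pool.Agent.R545.Tg

/-- **Q1 has a negative answer.** There is an undirected non-strict temporal graph `G` such that no
directed proper simple temporal graph `H` has an isomorphic reachability graph (with non-strict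
paths in `H`, and also with strict paths in `H`). -/
theorem result :
    ∃ G : UTempGraph (Fin 3 × Fin 3), ∀ (W : Type) [Fintype W] (H : DTempGraph W),
      H.Proper → H.Simple →
      (¬ ∃ φ : Fin 3 × Fin 3 ≃ W,
        ∀ u v, RGraph (· ≤ ·) G.At u v ↔ RGraph (· ≤ ·) H.At (φ u) (φ v)) ∧
      (¬ ∃ φ : Fin 3 × Fin 3 ≃ W,
        ∀ u v, RGraph (· ≤ ·) G.At u v ↔ RGraph (· < ·) H.At (φ u) (φ v)) := by
  refine ⟨cycG, fun W _ H hP hS => ⟨?_, ?_⟩⟩
  · rintro ⟨φ, hφ⟩
    exact cycG_no_simple W H hS φ hφ
  · rintro ⟨φ, hφ⟩
    refine cycG_no_simple W H hS φ fun u v => (hφ u v).trans ?_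
    exact and_congr_right fun _ => hP.strict

end Pool.Agent.Results.MP_352b69_co.NineCycleProper
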